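import Pool.Agent.KS6_65.TZ.VsC

/-! Location of the zeros: monotonicity and the exact rate. -/

open Filter Topology Finset Real

namespace Pool.Agent.KS6_65.TZ

variable {q : ℝ}

lemma exp_lt_one' {x : ℝ} (h : x < 0) : Real.exp x < 1 := by
  rw [← Real.exp_zero]; exact Real.exp_lt_exp.2 h

/-- The zero of `P (2 m + 1)` on the positive axis. -/
theorem exists_root (m : ℕ) (hm : 1 ≤ m) : ∃ r : ℝ, r ∈ A (2 * m + 1) ∧ r < 1 ∧
    P (2 * m + 1) r = 0 ∧ (∀ q, 0 < q → 0 < P (2 * m + 1) q → q < r) ∧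
    (∀ q, 0 < q → P (2 * m + 1) q < 0 → r < q) := by
  have hc := (P_diff (2 * m + 1)).continuous
  have h1 : P (2 * m + 1) 1 < 0 := odd_neg m hm one_pos fun h => lt_irrefl _ (A_lt h)
  obtain ⟨r, hr, hr0⟩ : (0 : ℝ) ∈ P (2 * m + 1) '' Set.Ioo 0 1 :=
    intermediate_value_Ioo' zero_le_one hc.continuousOn ⟨h1, by rw [P_at0]; norm_num⟩
  have inA : ∀ q, 0 < q → 0 ≤ P (2 * m + 1) q → q ∈ A (2 * m + 1) := by
    intro q h0 h
    by_contra hn
    exact absurd (odd_neg m hm h0 hn) (not_lt.2 h)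
  have sa : StrictAntiOn (P (2 * m + 1)) (A (2 * m + 1)) :=
    strictAntiOn_of_deriv_neg (A_conv _) hc.continuousOn
      fun q hq => deriv_neg m (interior_subset hq)
  have hrA := inA r hr.1 hr0.ge
  refine ⟨r, hrA, hr.2, hr0, fun q h0 h => ?_, fun q h0 h => ?_⟩
  · by_contra hn
    have := sa.antitoneOn hrA (inA q h0 h.le) (not_lt.1 hn)
    linarith
  · by_contra hn
    have hq : q ∈ A (2 * m + 1) := A_down hrA h0 (not_lt.1 hn)
    have := sa.antitoneOn hq hrA (not_lt.1 hn)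
    linarith

lemma P_le (h0 : 0 < q) (h1 : q < 1) (m : ℕ) (D : ∀ j, 2 * m + 2 ≤ j → a q (j + 1) ≤ a q j) :
    P (2 * m + 1) q ≤ PP q ^ 3 - (a q (2 * m + 2) - a q (2 * m + 3)) := by
  have h2 : P (2 * m + 3) q ≤ PP q ^ 3 := by
    have mono : ∀ k, P (2 * m + 3) q ≤ P (2 * m + 3 + 2 * k) q := by
      intro k
      induction k with
      | zero => simp
      | succ k ih =>
        rw [show 2 * m + 3 + 2 * (k + 1) = 2 * (m + 1 + k) + 1 + 2 by ring,
          odd_two (m + 1 + k)]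
        rw [show 2 * m + 3 + 2 * k = 2 * (m + 1 + k) + 1 by ring] at ih
        have := D (2 * (m + 1 + k) + 1 + 1) (by omega)
        linarith
    exact ge_of_tendsto' (P_tend h0 h1 (2 * m + 3)) mono
  rw [show 2 * m + 3 = 2 * m + 1 + 2 by ring, odd_two] at h2
  simp only [show 2 * m + 1 + 1 = 2 * m + 2 by ring, show 2 * m + 2 + 1 = 2 * m + 3 by ring] at h2
  linarith

lemma le_P (h0 : 0 < q) (h1 : q < 1) (m : ℕ) (D : ∀ j, 2 * m + 2 ≤ j → a q (j + 1) ≤ a q j) :
    PP q ^ 3 - a q (2 * m + 2) ≤ P (2 * m + 1) q := by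
  have h2 : PP q ^ 3 ≤ P (2 * m + 2) q := by
    have mono : ∀ k, P (2 * m + 2 + 2 * k) q ≤ P (2 * m + 2) q := by
      intro k
      induction k with
      | zero => simp
      | succ k ih =>
        rw [show 2 * m + 2 + 2 * (k + 1) = 2 * (m + 1 + k) + 2 by ring, P_two, pow_succ, pow_mul]
        rw [show 2 * m + 2 + 2 * k = 2 * (m + 1 + k) by ring] at ih
        have := D (2 * (m + 1 + k) + 1) (by omega)
        norm_num
        linarith
    exact le_of_tendsto' (P_tend h0 h1 (2 * m + 2)) mono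
  have h3 : P (2 * m + 2) q = P (2 * m + 1) q + a q (2 * m + 2) := by
    unfold P
    rw [show 2 * m + 2 + 1 = (2 * m + 1 + 1) + 1 by ring, sum_range_succ,
      show 2 * m + 1 + 1 = 2 * (m + 1) by ring, pow_mul]
    norm_num
  linarith

lemma log_po (h0 : 0 < q) (h1 : q < 1) (M : ℕ) :
    HasSum (fun k : ℕ => (∑ m ∈ range M, (q ^ (k + 1)) ^ (m + 1)) / ((k : ℝ) + 1))
      (-Real.log (po q M)) := by
  have e1 : -Real.log (po q M) = ∑ m ∈ range M, -Real.log (1 - q ^ (m + 1)) := by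
    unfold po
    rw [Real.log_prod (fun k _ => (fac_pos h0 h1 k).ne'), sum_neg_distrib]
  rw [e1]
  have h : ∀ m ∈ range M, HasSum (fun k : ℕ => (q ^ (m + 1)) ^ (k + 1) / ((k : ℝ) + 1))
      (-Real.log (1 - q ^ (m + 1))) := by
    intro m _
    have hq : |q ^ (m + 1)| < 1 := by
      rw [abs_of_pos (by positivity)]
      exact pow_lt_one₀ h0.le h1 (by omega)
    exact Real.hasSum_pow_div_log_of_abs_lt_one hq
  refine hsc (hasSum_sum h) fun k => ?_
  rw [sum_div]
  refine sum_congr rfl fun m _ => ?_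
  rw [← pow_mul, ← pow_mul, mul_comm]

lemma zeta2 : HasSum (fun k : ℕ => 1 / ((k : ℝ) + 1) ^ 2) (π ^ 2 / 6) := by
  have h := (hasSum_nat_add_iff' 1).2 hasSum_zeta_two
  simpa using h

/-- `e^{-s} / (1 - e^{-s}) ≤ 1 / s` -/
lemma geo_le {s : ℝ} (hs : 0 < s) : Real.exp (-s) / (1 - Real.exp (-s)) ≤ 1 / s := by
  have h1 : Real.exp (-s) < 1 := exp_lt_one' (by linarith)
  rw [div_le_div_iff₀ (by linarith) hs]
  have h2 := Real.add_one_le_exp s
  have h3 : Real.exp (-s) * Real.exp s = 1 := by rw [← Real.exp_add]; simp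
  nlinarith [Real.exp_pos (-s)]

lemma le_geo {s : ℝ} (hs : 0 < s) : 1 / s - 1 ≤ Real.exp (-s) / (1 - Real.exp (-s)) := by
  have h1 : Real.exp (-s) < 1 := exp_lt_one' (by linarith)
  have h2 := Real.add_one_le_exp (-s)
  have e : Real.exp (-s) / (1 - Real.exp (-s)) = 1 / (1 - Real.exp (-s)) - 1 := by
    have : 1 - Real.exp (-s) ≠ 0 := by linarith
    field_simp
    ring
  rw [e]
  gcongr
  linarith

lemma geo_sum {x : ℝ} (h0 : 0 ≤ x) (h1 : x < 1) :
    HasSum (fun m : ℕ => x ^ (m + 1)) (x / (1 - x)) := by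
  have := (hasSum_geometric_of_lt_one h0 h1).mul_left x
  exact hsc this fun m => by ring

/-- The infinite product is at least `exp (-π² / (6 t))` at `q = exp (-t)`. -/
lemma PP_ge {t : ℝ} (ht : 0 < t) : Real.exp (-(π ^ 2 / 6 / t)) ≤ PP (Real.exp (-t)) := by
  have h0 := Real.exp_pos (-t)
  have h1 : Real.exp (-t) < 1 := exp_lt_one' (by linarith)
  refine le_ciInf fun M => ?_
  have hp := po_pos h0 h1 M
  rw [← Real.log_le_log_iff (Real.exp_pos _) hp, Real.log_exp]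
  have h2 : -Real.log (po (Real.exp (-t)) M) ≤ π ^ 2 / 6 / t := by
    refine hasSum_le (fun k => ?_) (log_po h0 h1 M) (zeta2.div_const t)
    have hk : (0 : ℝ) < k + 1 := by positivity
    have e : Real.exp (-t) ^ (k + 1) = Real.exp (-((k + 1) * t)) := by
      rw [← Real.exp_nat_mul]; congr 1; push_cast; ring
    have h3 : Real.exp (-((k + 1) * t)) < 1 := exp_lt_one' (by nlinarith)
    rw [e]
    have h4 : ∑ m ∈ range M, Real.exp (-((k + 1) * t)) ^ (m + 1) ≤ 1 / ((k + 1) * t) :=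
      (sum_le_hasSum _ (fun m _ => by positivity) (geo_sum (Real.exp_pos _).le h3)).trans
        (geo_le (by positivity))
    calc _ ≤ 1 / ((k + 1) * t) / ((k : ℝ) + 1) := by gcongr
      _ = _ := by field_simp
  linarith

/-- Upper bounds for the infinite product. -/
lemma PP_le' {t : ℝ} (ht : 0 < t) (K : ℕ) : PP (Real.exp (-t)) ≤
    Real.exp (-((∑ k ∈ range K, 1 / ((k : ℝ) + 1) ^ 2) / t - ∑ k ∈ range K, 1 / ((k : ℝ) + 1))) := by
  have h0 := Real.exp_pos (-t)
  have h1 : Real.exp (-t) < 1 := exp_lt_one' (by linarith)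
  have hP := PP_pos h0 h1
  rw [← Real.log_le_log_iff hP (Real.exp_pos _), Real.log_exp]
  have h2 : ∀ M : ℕ, ∑ k ∈ range K,
      (∑ m ∈ range M, (Real.exp (-t) ^ (k + 1)) ^ (m + 1)) / ((k : ℝ) + 1) ≤
        -Real.log (PP (Real.exp (-t))) := by
    intro M
    have a1 := sum_le_hasSum (range K) (fun k _ => by positivity) (log_po h0 h1 M)
    have a2 : Real.log (PP (Real.exp (-t))) ≤ Real.log (po (Real.exp (-t)) M) :=
      Real.log_le_log hP (PP_le h0 h1 M)
    linarith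
  have h3 : Tendsto (fun M : ℕ => ∑ k ∈ range K,
      (∑ m ∈ range M, (Real.exp (-t) ^ (k + 1)) ^ (m + 1)) / ((k : ℝ) + 1)) atTop
      (𝓝 (∑ k ∈ range K,
        (Real.exp (-t) ^ (k + 1) / (1 - Real.exp (-t) ^ (k + 1))) / ((k : ℝ) + 1))) := by
    refine tendsto_finsetSum _ fun k _ => ?_
    exact (geo_sum (by positivity) (pow_lt_one₀ h0.le h1 (by omega))).tendsto_sum_nat.div_const _
  have h4 := le_of_tendsto' h3 h2
  have h5 : (∑ k ∈ range K, 1 / ((k : ℝ) + 1) ^ 2) / t - ∑ k ∈ range K, 1 / ((k : ℝ) + 1) ≤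
      ∑ k ∈ range K,
        (Real.exp (-t) ^ (k + 1) / (1 - Real.exp (-t) ^ (k + 1))) / ((k : ℝ) + 1) := by
    rw [sum_div, ← sum_sub_distrib]
    refine sum_le_sum fun k _ => ?_
    have hk : (0 : ℝ) < k + 1 := by positivity
    have e : Real.exp (-t) ^ (k + 1) = Real.exp (-((k + 1) * t)) := by
      rw [← Real.exp_nat_mul]; congr 1; push_cast; ring
    rw [e]
    have := le_geo (s := (k + 1) * t) (by positivity)
    calc 1 / ((k : ℝ) + 1) ^ 2 / t - 1 / ((k : ℝ) + 1) = (1 / ((k + 1) * t) - 1) / ((k : ℝ) + 1) := by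
          field_simp
      _ ≤ _ := by gcongr
  linarith

lemma exp_T (c : ℝ) (n : ℕ) (j : ℕ) :
    Real.exp (-(c / n)) ^ j = Real.exp (-(c / n) * j) := by
  rw [← Real.exp_nat_mul]; congr 1; ring

/-- `P_n > 0` at `exp (-c / n)` for `c > π` and large odd `n`. -/
lemma claimU {c : ℝ} (hc : π < c) : ∀ᶠ m : ℕ in atTop,
    0 < P (2 * m + 1) (Real.exp (-(c / (2 * m + 1 : ℕ)))) := by
  have hπ := Real.pi_gt_three
  have hc0 : 0 < c := by linarith
  set δ : ℝ := c / 2 - π ^ 2 / (2 * c) with hδ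
  have hδ0 : 0 < δ := by
    rw [hδ, sub_pos, div_lt_div_iff₀ (by positivity) (by norm_num)]
    nlinarith
  obtain ⟨N, hN⟩ := exists_nat_gt (10 / δ ^ 2)
  filter_upwards [eventually_ge_atTop N] with m hm
  set n : ℕ := 2 * m + 1 with hn
  have hn1 : (1 : ℝ) ≤ n := by exact_mod_cast (by omega : 1 ≤ n)
  have hnN : 10 / δ ^ 2 < n := hN.trans (by exact_mod_cast (by omega : N < n))
  have hn0 : (0 : ℝ) < n := by linarith
  set t : ℝ := c / n with ht
  have ht0 : 0 < t := by positivity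
  have h0 := Real.exp_pos (-t)
  have h1 : Real.exp (-t) < 1 := exp_lt_one' (by linarith)
  have hq3 : ∀ j : ℕ, n ≤ j → Real.exp (-t) ^ j ≤ 1 / 3 := by
    intro j hj
    have hj' : (n : ℝ) ≤ j := by exact_mod_cast hj
    rw [ht, exp_T]
    have b1 : Real.exp (-(c / n) * j) ≤ Real.exp (-3) := by
      apply Real.exp_le_exp.2
      have : c / n * j ≥ c := by
        rw [ge_iff_le, div_mul_eq_mul_div, le_div_iff₀ hn0]
        nlinarith
      linarith
    have b2 : Real.exp (-3) ≤ 1 / 3 := by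
      rw [Real.exp_neg, one_div]
      apply inv_anti₀ (by norm_num)
      have := Real.add_one_le_exp (3 : ℝ)
      linarith
    exact b1.trans b2
  have D : ∀ j, 2 * m + 2 ≤ j → a (Real.exp (-t)) (j + 1) ≤ a (Real.exp (-t)) j := by
    intro j hj
    refine a_ge h0.le ?_
    have := hq3 (j + 1) (by omega)
    have hj0 : (0 : ℝ) ≤ j := by positivity
    nlinarith
  have h2 := le_P h0 h1 m D
  refine lt_of_lt_of_le ?_ h2
  rw [sub_pos]
  have h3 : Real.exp (-(π ^ 2 / (2 * c) * n)) ≤ PP (Real.exp (-t)) ^ 3 := by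
    have := PP_ge ht0
    calc _ = Real.exp (-(π ^ 2 / 6 / t)) ^ 3 := by
          rw [← Real.exp_nat_mul, ht]
          congr 1
          push_cast
          field_simp
          ring
      _ ≤ _ := by gcongr
  refine lt_of_lt_of_le ?_ h3
  have h4 : a (Real.exp (-t)) (2 * m + 2) ≤ (2 * n + 3) * Real.exp (-(c / 2 * n)) := by
    unfold a
    have e1 : (2 * ((2 * m + 2 : ℕ) : ℝ) + 1) = 2 * n + 3 := by rw [hn]; push_cast; ring
    rw [e1]
    gcongr
    rw [ht, exp_T]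
    apply Real.exp_le_exp.2
    have t1 : 2 * (T (2 * m + 2) : ℝ) = (2 * m + 2 : ℕ) ^ 2 + (2 * m + 2 : ℕ) := by
      exact_mod_cast two_T (2 * m + 2)
    have t2 : (n : ℝ) ^ 2 ≤ 2 * (T (2 * m + 2) : ℝ) := by
      rw [t1, hn]; push_cast
      have : (0 : ℝ) ≤ m := by positivity
      nlinarith
    have t3 : c / n * T (2 * m + 2) ≥ c / 2 * n := by
      have e3 : c / n * T (2 * m + 2) = c / 2 / n * (2 * T (2 * m + 2)) := by ring
      have e4 : c / 2 * n = c / 2 / n * (n : ℝ) ^ 2 := by field_simp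
      rw [ge_iff_le, e3, e4]
      gcongr
    linarith
  refine lt_of_le_of_lt h4 ?_
  have h5 : 2 * (n : ℝ) + 3 < Real.exp (δ * n) := by
    have := Real.quadratic_le_exp_of_nonneg (x := δ * n) (by positivity)
    refine lt_of_lt_of_le ?_ this
    rw [div_lt_iff₀ (by positivity)] at hnN
    have : 10 * (n : ℝ) < (δ * n) ^ 2 := by nlinarith
    have : 0 < δ * n := by positivity
    linarith
  have e2 : Real.exp (-(π ^ 2 / (2 * c) * n)) = Real.exp (δ * n) * Real.exp (-(c / 2 * n)) := by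
    rw [← Real.exp_add]; congr 1; rw [hδ]; ring
  rw [e2]
  gcongr

/-- `P_n < 0` at `exp (-c / n)` for `0 < c < π` and large odd `n`. -/
lemma claimL {c : ℝ} (hc0 : 0 < c) (hc : c < π) : ∀ᶠ m : ℕ in atTop,
    P (2 * m + 1) (Real.exp (-(c / (2 * m + 1 : ℕ)))) < 0 := by
  have hz := zeta2.tendsto_sum_nat
  have hlt : c ^ 2 / 6 < π ^ 2 / 6 := by
    have := Real.pi_pos
    gcongr
  obtain ⟨K, hK⟩ := ((tendsto_order.1 hz).1 _ hlt).exists
  set S : ℝ := ∑ k ∈ range K, 1 / ((k : ℝ) + 1) ^ 2 with hS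
  set H : ℝ := ∑ k ∈ range K, 1 / ((k : ℝ) + 1) with hH
  have hH0 : 0 ≤ H := sum_nonneg fun k _ => by positivity
  set δ : ℝ := 3 * S / c - c / 2 with hδ
  have hδ0 : 0 < δ := by
    rw [hδ, sub_pos, lt_div_iff₀ hc0]
    nlinarith
  set e : ℝ := Real.exp (-c) with he
  have he0 : 0 < e := Real.exp_pos _
  have he1 : e < 1 := exp_lt_one' (by linarith)
  obtain ⟨N₁, hN₁⟩ := exists_nat_gt (5 / (1 - e))
  obtain ⟨N₂, hN₂⟩ := exists_nat_gt ((3 * H + 5 * c / 2) / δ)
  filter_upwards [eventually_ge_atTop N₁, eventually_ge_atTop N₂] with m hm₁ hm₂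
  set n : ℕ := 2 * m + 1 with hn
  have hn1 : (1 : ℝ) ≤ n := by exact_mod_cast (by omega : 1 ≤ n)
  have hn0 : (0 : ℝ) < n := by linarith
  have hnN₁ : 5 / (1 - e) < n := hN₁.trans (by exact_mod_cast (by omega : N₁ < n))
  have hnN₂ : (3 * H + 5 * c / 2) / δ < n := hN₂.trans (by exact_mod_cast (by omega : N₂ < n))
  rw [div_lt_iff₀ (by linarith)] at hnN₁
  rw [div_lt_iff₀ hδ0] at hnN₂
  set t : ℝ := c / n with ht
  have ht0 : 0 < t := by positivity
  have h0 := Real.exp_pos (-t)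
  have h1 : Real.exp (-t) < 1 := exp_lt_one' (by linarith)
  have hq3 : ∀ j : ℕ, n ≤ j → Real.exp (-t) ^ j ≤ e := by
    intro j hj
    have hj' : (n : ℝ) ≤ j := by exact_mod_cast hj
    rw [ht, exp_T]
    apply Real.exp_le_exp.2
    have : c / n * j ≥ c := by
      rw [ge_iff_le, div_mul_eq_mul_div, le_div_iff₀ hn0]
      nlinarith
    linarith
  have D : ∀ j, 2 * m + 2 ≤ j → a (Real.exp (-t)) (j + 1) ≤ a (Real.exp (-t)) j := by
    intro j hj
    refine a_ge h0.le ?_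
    have h2 := hq3 (j + 1) (by omega)
    have hj0 : (n : ℝ) ≤ j := by exact_mod_cast (by omega : n ≤ j)
    have h3 : (2 * (j : ℝ) + 3) * Real.exp (-t) ^ (j + 1) ≤ (2 * j + 3) * e := by gcongr
    nlinarith
  have h2 := P_le h0 h1 m D
  refine lt_of_le_of_lt h2 ?_
  rw [sub_neg]
  have h3 : PP (Real.exp (-t)) ^ 3 ≤ Real.exp (-((c / 2 + δ) * n) + 3 * H) := by
    have := PP_le' ht0 K
    calc _ ≤ Real.exp (-(S / t - H)) ^ 3 := by
          gcongr
          exact (PP_pos h0 h1).le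
      _ = _ := by
          rw [← Real.exp_nat_mul, ht, hδ]
          congr 1
          push_cast
          field_simp
          ring
  refine lt_of_le_of_lt h3 ?_
  have h4 : Real.exp (-(c / 2 * n) - 5 * c / 2) ≤
      a (Real.exp (-t)) (2 * m + 2) - a (Real.exp (-t)) (2 * m + 3) := by
    rw [show 2 * m + 3 = (2 * m + 2) + 1 by ring, a_succ _ (2 * m + 2), a]
    have e1 : (2 * ((2 * m + 2 : ℕ) : ℝ) + 1) = 2 * n + 3 := by rw [hn]; push_cast; ring
    have e2 : (2 * ((2 * m + 2 : ℕ) : ℝ) + 3) = 2 * n + 5 := by rw [hn]; push_cast; ring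
    rw [e1, e2, ← sub_mul]
    have h5 := hq3 (2 * m + 2 + 1) (by omega)
    have h6 : (2 * (n : ℝ) + 5) * Real.exp (-t) ^ (2 * m + 2 + 1) ≤ (2 * n + 5) * e := by gcongr
    have h7 : 1 ≤ 2 * (n : ℝ) + 3 - (2 * n + 5) * Real.exp (-t) ^ (2 * m + 2 + 1) := by nlinarith
    have h8 : Real.exp (-(c / 2 * n) - 5 * c / 2) ≤ Real.exp (-t) ^ T (2 * m + 2) := by
      rw [ht, exp_T]
      apply Real.exp_le_exp.2
      have t1 : 2 * (T (2 * m + 2) : ℝ) = (2 * m + 2 : ℕ) ^ 2 + (2 * m + 2 : ℕ) := by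
        exact_mod_cast two_T (2 * m + 2)
      have t2 : 2 * (T (2 * m + 2) : ℝ) ≤ (n : ℝ) ^ 2 + 5 * n := by
        rw [t1, hn]; push_cast
        have : (0 : ℝ) ≤ m := by positivity
        nlinarith
      have e3 : c / n * T (2 * m + 2) = c / 2 / n * (2 * T (2 * m + 2)) := by ring
      have e4 : c / 2 * n + 5 * c / 2 = c / 2 / n * ((n : ℝ) ^ 2 + 5 * n) := by
        field_simp
      have e5 : c / n * T (2 * m + 2) ≤ c / 2 * n + 5 * c / 2 := by
        rw [e3, e4]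
        gcongr
      linarith
    have h9 := Real.exp_pos (-(c / 2 * n) - 5 * c / 2)
    calc _ = 1 * Real.exp (-(c / 2 * n) - 5 * c / 2) := (one_mul _).symm
      _ ≤ _ := mul_le_mul h7 h8 h9.le (by linarith)
  refine lt_of_lt_of_le ?_ h4
  apply Real.exp_lt_exp.2
  nlinarith

/-- The zeros in the variable `q = x²`, for `n = 2 k + 3`. -/
theorem exists_seq : ∃ r : ℕ → ℝ, (∀ k, 0 < r k ∧ r k < 1 ∧ P (2 * k + 3) (r k) = 0) ∧
    StrictMono r ∧ Tendsto (fun k : ℕ => (2 * k + 3 : ℝ) * -Real.log (r k)) atTop (𝓝 π) := by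
  choose r hA h1 h0 hpos hneg using fun k : ℕ => exists_root (k + 1) (by omega)
  have e (k : ℕ) : 2 * (k + 1) + 1 = 2 * k + 3 := by ring
  refine ⟨r, fun k => ⟨(hA k).1, h1 k, by rw [← e, h0]⟩, ?_, ?_⟩
  · refine strictMono_nat_of_lt_succ fun k => ?_
    apply hpos (k + 1) _ (hA k).1
    rw [show 2 * (k + 1 + 1) + 1 = 2 * (k + 1) + 1 + 2 by ring, odd_two, h0, zero_add, sub_pos,
      a_succ _ (2 * (k + 1) + 1 + 1), a]
    have hr := (hA k).1
    gcongr
    have h2 := (hA k).2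
    push_cast at h2 ⊢
    have hk : (0 : ℝ) ≤ k := by positivity
    rw [show 2 * (k + 1) + 1 + 1 + 1 = 2 * (k + 1) + 1 + 2 by ring]
    set y := r k ^ (2 * (k + 1) + 1 + 2)
    have hy : 0 < y := by positivity
    nlinarith
  · have key : ∀ c : ℝ, 0 < c → ∀ k : ℕ,
        (2 * k + 3 : ℝ) * -Real.log (r k) < c ↔ Real.exp (-(c / (2 * (k + 1) + 1 : ℕ))) < r k := by
      intro c _ k
      have hk : (0 : ℝ) < 2 * k + 3 := by positivity
      rw [← Real.lt_log_iff_exp_lt (hA k).1, show ((2 * (k + 1) + 1 : ℕ) : ℝ) = 2 * k + 3 by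
        push_cast; ring, neg_lt, lt_div_iff₀ hk, mul_comm]
    have key' : ∀ c : ℝ, 0 < c → ∀ k : ℕ,
        c < (2 * k + 3 : ℝ) * -Real.log (r k) ↔ r k < Real.exp (-(c / (2 * (k + 1) + 1 : ℕ))) := by
      intro c _ k
      have hk : (0 : ℝ) < 2 * k + 3 := by positivity
      rw [← Real.log_lt_iff_lt_exp (hA k).1, show ((2 * (k + 1) + 1 : ℕ) : ℝ) = 2 * k + 3 by
        push_cast; ring, lt_neg, div_lt_iff₀ hk, mul_comm]
    refine tendsto_order.2 ⟨fun c hc => ?_, fun c hc => ?_⟩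
    · have h2 : ∀ c : ℝ, 0 < c → c < π → ∀ᶠ k : ℕ in atTop,
          c < (2 * k + 3 : ℝ) * -Real.log (r k) := by
        intro c hc0 hc
        filter_upwards [(tendsto_add_atTop_nat 1).eventually (claimL hc0 hc)] with k hk
        rw [key' c hc0]
        exact hneg k _ (Real.exp_pos _) hk
      rcases lt_or_ge 0 c with h | h
      · exact h2 c h hc
      · filter_upwards [h2 1 one_pos (by linarith [Real.pi_gt_three])] with k hk
        linarith
    · filter_upwards [(tendsto_add_atTop_nat 1).eventually (claimU hc)] with k hk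
      rw [key c (by linarith [Real.pi_pos])]
      exact hpos k _ (Real.exp_pos _) hk

end Pool.Agent.KS6_65.TZ
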