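import Pool.Agent.KS6_65.TZ.VsA

open Filter Topology Finset

namespace Pool.Agent.KS6_65.TZ

noncomputable def P (n : ℕ) (q : ℝ) : ℝ := ∑ j ∈ range (n + 1), (-1 : ℝ) ^ j * a q j

variable {q : ℝ}

lemma P_two (n : ℕ) (q : ℝ) :
    P (n + 2) q = P n q + (-1) ^ (n + 1) * (a q (n + 1) - a q (n + 2)) := by
  unfold P
  rw [sum_range_succ, sum_range_succ]; ring

lemma P_tend (h0 : 0 < q) (h1 : q < 1) (n : ℕ) :
    Tendsto (fun k => P (n + 2 * k) q) atTop (𝓝 (PP q ^ 3)) := by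
  have : Tendsto (fun k : ℕ => n + 2 * k + 1) atTop atTop :=
    tendsto_atTop_mono (fun N => by simp only [id]; omega) tendsto_id
  exact (jacobi h0 h1).tendsto_sum_nat.comp this

lemma a_succ (q : ℝ) (j : ℕ) : a q (j + 1) = (2 * j + 3) * q ^ (j + 1) * q ^ T j := by
  unfold a; rw [T]; push_cast; ring

lemma a_le (h0 : 0 ≤ q) {j : ℕ} (h : 2 * (j : ℝ) + 1 ≤ (2 * j + 3) * q ^ (j + 1)) :
    a q j ≤ a q (j + 1) := by
  rw [a_succ, a]; gcongr

lemma a_ge (h0 : 0 ≤ q) {j : ℕ} (h : (2 * j + 3) * q ^ (j + 1) ≤ 2 * (j : ℝ) + 1) :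
    a q (j + 1) ≤ a q j := by
  rw [a_succ, a]; gcongr

lemma P_zero (q : ℝ) : P 0 q = 1 := by simp [P, a, T]

lemma even_inc (m : ℕ) (h : ∀ j < 2 * m, a q j ≤ a q (j + 1)) : 1 ≤ P (2 * m) q := by
  induction m with
  | zero => simp [P_zero]
  | succ m ih =>
    rw [show 2 * (m + 1) = 2 * m + 2 by ring, P_two, pow_succ, pow_mul]
    have h1 := ih fun j hj => h j (by omega)
    have h2 := h (2 * m + 1) (by omega)
    norm_num
    linarith

theorem even_pos (m : ℕ) (h0 : 0 < q) : 0 < P (2 * m) q := by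
  by_cases h : ∀ j < 2 * m, a q j ≤ a q (j + 1)
  · linarith [even_inc m h]
  push Not at h
  obtain ⟨j, hj, hlt⟩ := h
  have hq : (2 * j + 3) * q ^ (j + 1) < 2 * (j : ℝ) + 1 := by
    by_contra hn; exact absurd (a_le h0.le (not_lt.1 hn)) (not_le.2 hlt)
  have h1 : q < 1 := by
    by_contra hn
    have : 1 ≤ q ^ (j + 1) := one_le_pow₀ (not_lt.1 hn)
    have : (0 : ℝ) ≤ j := by positivity
    nlinarith
  have dec : ∀ i, j ≤ i → a q (i + 1) ≤ a q i := by
    intro i hi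
    refine a_ge h0.le ?_
    have e1 : q ^ (i + 1) ≤ q ^ (j + 1) := pow_le_pow_of_le_one h0.le h1.le (by omega)
    have e2 : (j : ℝ) ≤ i := by exact_mod_cast hi
    have e3 : q ^ (j + 1) ≤ 1 := pow_le_one₀ h0.le h1.le
    have e4 : (0 : ℝ) ≤ j := by positivity
    nlinarith
  have mono : ∀ k, P (2 * m + 2 * k) q ≤ P (2 * m) q := by
    intro k
    induction k with
    | zero => simp
    | succ k ih =>
      rw [show 2 * m + 2 * (k + 1) = 2 * (m + k) + 2 by ring, P_two, pow_succ, pow_mul]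
      rw [show 2 * m + 2 * k = 2 * (m + k) by ring] at ih
      have := dec (2 * (m + k) + 1) (by omega)
      norm_num
      linarith
  have := le_of_tendsto' (P_tend h0 h1 (2 * m)) mono
  exact lt_of_lt_of_le (pow_pos (PP_pos h0 h1) 3) this

/-- derivative of `a · j - a · (j+1)` -/
noncomputable def g' (j : ℕ) (q : ℝ) : ℝ :=
  (2 * j + 1) * (T j * q ^ (T j - 1)) - (2 * (j + 1 : ℕ) + 1) * (T (j + 1) * q ^ (T (j + 1) - 1))

lemma g_der (j : ℕ) (q : ℝ) : HasDerivAt (fun q => a q j - a q (j + 1)) (g' j q) q :=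
  ((hasDerivAt_pow (T j) q).const_mul _).sub ((hasDerivAt_pow (T (j + 1)) q).const_mul _)

lemma g'_pos (h0 : 0 < q) {j : ℕ} (hj : 1 ≤ j)
    (h : ((j : ℝ) + 2) * (2 * j + 3) * q ^ (j + 1) < j * (2 * j + 1)) : 0 < g' j q := by
  have t1 : 2 * (T j : ℝ) = j ^ 2 + j := by exact_mod_cast two_T j
  have t2 : (T (j + 1) : ℝ) = T j + (j + 1) := by rw [T]; push_cast; ring
  have t3 : T (j + 1) - 1 = (T j - 1) + (j + 1) := by
    have := le_T j; rw [T]; omega
  unfold g'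
  rw [t3, pow_add, t2]
  have hp : 0 < q ^ (T j - 1) := by positivity
  have e : (T j : ℝ) = (j ^ 2 + j) / 2 := by linarith
  rw [e]
  push_cast
  have : 0 < ((j : ℝ) + 1) / 2 * (j * (2 * j + 1) - (j + 2) * (2 * j + 3) * q ^ (j + 1))
      * q ^ (T j - 1) := by
    have : 0 < (j : ℝ) * (2 * j + 1) - (j + 2) * (2 * j + 3) * q ^ (j + 1) := by linarith
    positivity
  linarith

/-- the small regime -/
def A (n : ℕ) : Set ℝ :=
  {q | 0 < q ∧ ((n : ℝ) + 3) * (2 * n + 5) * q ^ (n + 2) < (n + 1) * (2 * n + 3)}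

lemma A_lt {n : ℕ} (h : q ∈ A n) : q < 1 := by
  by_contra hn
  have h1 : 1 ≤ q ^ (n + 2) := one_le_pow₀ (not_lt.1 hn)
  have h2 := h.2
  have : (0 : ℝ) ≤ n := by positivity
  have h3 : ((n : ℝ) + 3) * (2 * n + 5) * 1 ≤ (n + 3) * (2 * n + 5) * q ^ (n + 2) := by gcongr
  nlinarith

lemma A_down {n : ℕ} {r : ℝ} (h : q ∈ A n) (h0 : 0 < r) (h1 : r ≤ q) : r ∈ A n :=
  ⟨h0, lt_of_le_of_lt (by gcongr) h.2⟩

lemma A_conv (n : ℕ) : Convex ℝ (A n) :=
  Set.OrdConnected.convex ⟨fun _ hx _ hy _ hz => A_down hy (lt_of_lt_of_le hx.1 hz.1) hz.2⟩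

lemma A_open (n : ℕ) : IsOpen (A n) :=
  (isOpen_lt continuous_const continuous_id).inter
    (isOpen_lt (f := fun q : ℝ => ((n : ℝ) + 3) * (2 * n + 5) * q ^ (n + 2)) (by fun_prop)
      continuous_const)

lemma A_g {n j : ℕ} (h : q ∈ A n) (hj : n + 1 ≤ j) : 0 < g' j q := by
  refine g'_pos h.1 (by omega) ?_
  have e1 : q ^ (j + 1) ≤ q ^ (n + 2) := pow_le_pow_of_le_one h.1.le (A_lt h).le (by omega)
  obtain ⟨d, rfl⟩ := Nat.exists_eq_add_of_le hj
  have h2 := h.2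
  have hn : (0 : ℝ) ≤ n := by positivity
  have hd : (0 : ℝ) ≤ d := by positivity
  have hp : 0 < ((n : ℝ) + 3) * (2 * n + 5) := by positivity
  push_cast
  set x := q ^ (n + 2)
  refine lt_of_le_of_lt (b := ((n : ℝ) + 1 + d + 2) * (2 * (n + 1 + d) + 3) * x) (by gcongr) ?_
  refine lt_of_mul_lt_mul_left ?_ hp.le
  calc _ = ((n : ℝ) + 1 + d + 2) * (2 * (n + 1 + d) + 3) * ((n + 3) * (2 * n + 5) * x) := by ring
    _ < ((n : ℝ) + 1 + d + 2) * (2 * (n + 1 + d) + 3) * ((n + 1) * (2 * n + 3)) := by gcongr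
    _ ≤ _ := by
      have : 0 ≤ (d : ℝ) * (12 * n ^ 2 + 48 * n + 42 + d * (12 * n + 24)) := by positivity
      nlinarith

lemma g_mono {n j : ℕ} (hj : n + 1 ≤ j) : MonotoneOn (fun q => a q j - a q (j + 1)) (A n) := by
  refine monotoneOn_of_deriv_nonneg (A_conv n)
    (fun q _ => (g_der j q).continuousAt.continuousWithinAt)
    (fun q _ => (g_der j q).differentiableAt.differentiableWithinAt) fun q hq => ?_
  rw [(g_der j q).deriv]
  exact (A_g (interior_subset hq) hj).le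

lemma odd_two (m : ℕ) (q : ℝ) :
    P (2 * m + 1 + 2) q = P (2 * m + 1) q + (a q (2 * m + 1 + 1) - a q (2 * m + 1 + 1 + 1)) := by
  rw [P_two, show 2 * m + 1 + 1 = 2 * (m + 1) by ring, pow_mul]; norm_num; ring_nf

lemma anti (m : ℕ) : AntitoneOn (P (2 * m + 1 + 2)) (A (2 * m + 1)) := by
  intro x hx y hy hxy
  have step : ∀ k, P (2 * m + 1 + 2) y - P (2 * m + 1 + 2) x
      ≤ P (2 * m + 1 + 2 + 2 * k) y - P (2 * m + 1 + 2 + 2 * k) x := by
    intro k
    induction k with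
    | zero => simp
    | succ k ih =>
      rw [show 2 * m + 1 + 2 + 2 * (k + 1) = 2 * (m + 1 + k) + 1 + 2 by ring,
        odd_two (m + 1 + k) y, odd_two (m + 1 + k) x]
      rw [show 2 * m + 1 + 2 + 2 * k = 2 * (m + 1 + k) + 1 by ring] at ih
      have := g_mono (n := 2 * m + 1) (j := 2 * (m + 1 + k) + 1 + 1) (by omega) hx hy hxy
      simp only at this
      linarith
  have := ge_of_tendsto' ((P_tend hy.1 (A_lt hy) _).sub (P_tend hx.1 (A_lt hx) _)) step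
  have h2 : PP y ^ 3 ≤ PP x ^ 3 :=
    pow_le_pow_left₀ (PP_pos hy.1 (A_lt hy)).le (PP_anti hx.1 hxy (A_lt hy)) 3
  linarith

lemma P_diff (n : ℕ) : Differentiable ℝ (P n) := by
  unfold P a; fun_prop

theorem deriv_neg (m : ℕ) (h : q ∈ A (2 * m + 1)) : deriv (P (2 * m + 1)) q < 0 := by
  have h1 : deriv (P (2 * m + 1 + 2)) q ≤ 0 := by
    have := (anti m).derivWithin_nonpos (x := q)
    rwa [derivWithin_of_isOpen (A_open _) h] at this
  have h2 : HasDerivAt (P (2 * m + 1 + 2))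
      (deriv (P (2 * m + 1)) q + g' (2 * m + 1 + 1) q) q := by
    have := (P_diff (2 * m + 1) q).hasDerivAt.add (g_der (2 * m + 1 + 1) q)
    refine this.congr_of_eventuallyEq (Eventually.of_forall fun x => ?_)
    simp only [odd_two, Pi.add_apply]
  rw [h2.deriv] at h1
  linarith [A_g h (le_refl _)]

lemma bern (h0 : 0 < q) (h1 : q < 1) (j : ℕ) : 1 - q ^ j ≤ j * (1 - q) := by
  have := one_add_mul_le_pow (a := q - 1) (by linarith) j
  rw [show 1 + (q - 1) = q by ring] at this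
  linarith

lemma conc (h0 : 0 < q) (h1 : q < 1) (i : ℕ) (h : (2 * (i + 1 : ℝ) + 7) * (i + 1) * (1 - q) ≤ 6) :
    a q i - 2 * a q (i + 1) + a q (i + 2) ≤ 0 := by
  have hb := bern h0 h1 (i + 1)
  push_cast at hb
  have e : a q i - 2 * a q (i + 1) + a q (i + 2) = q ^ T i *
      ((2 * i + 1) - 2 * (2 * i + 3) * q ^ (i + 1) + (2 * i + 5) * q * (q ^ (i + 1)) ^ 2) := by
    rw [a_succ q (i + 1), a_succ q i, a, T]; push_cast; ring
  rw [e]
  refine mul_nonpos_of_nonneg_of_nonpos (by positivity) ?_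
  have hx : q ^ (i + 1) ≤ 1 := pow_le_one₀ h0.le h1.le
  obtain ⟨y, hy⟩ : ∃ y, q ^ (i + 1) = 1 - y := ⟨1 - q ^ (i + 1), by ring⟩
  obtain ⟨d, hd⟩ : ∃ d, q = 1 - d := ⟨1 - q, by ring⟩
  rw [hy] at hb hx ⊢
  rw [hd] at hb h ⊢
  obtain ⟨j, hj⟩ : ∃ j : ℝ, (i : ℝ) = j - 1 := ⟨i + 1, by ring⟩
  have hj1 : 1 ≤ j := by have : (0 : ℝ) ≤ i := by positivity
                         linarith
  rw [hj] at hb h ⊢
  have y0 : 0 ≤ y := by linarith
  have y1 : y ≤ j * d := by linarith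
  have y2 : (2 * j + 7) * y ≤ 6 := by nlinarith
  refine le_of_mul_le_mul_left (a := j) ?_ (by linarith)
  have k1 : (2 * j + 3) * (1 - y) ^ 2 * y ≤ (2 * j + 3) * (1 - y) ^ 2 * (j * d) := by gcongr
  have k2 : 2 * j * (1 - 2 * y) * y ≤ (2 * j + 3) * (1 - y) ^ 2 * y := by
    gcongr ?_ * y
    nlinarith [sq_nonneg (1 - y), mul_nonneg (by linarith : 0 ≤ j) (sq_nonneg y)]
  have k3 : j * y * ((2 * j + 7) * y - 6) ≤ 0 :=
    mul_nonpos_of_nonneg_of_nonpos (by positivity) (by linarith)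
  nlinarith

lemma fin (h0 : 0 < q) (h1 : q < 1) (m : ℕ) (hm : 1 ≤ m)
    (h : (2 * (m : ℝ) + 2) * (4 * m + 5) * (1 - q) ≤ 6) :
    1 + a q (2 * m) - 2 * a q (2 * m + 1) < 0 := by
  have e : 1 + a q (2 * m) - 2 * a q (2 * m + 1) = 1 - q ^ T (2 * m) *
      (2 * (4 * m + 3) * q ^ (2 * m + 1) - (4 * m + 1)) := by
    rw [a_succ, a]; push_cast; ring
  rw [e, sub_neg]
  have small : ∀ c : ℝ, 0 ≤ c → c ≤ q → 0 ≤ 2 * (4 * (m : ℝ) + 3) * c ^ (2 * m + 1) - (4 * m + 1) →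
      1 < c ^ T (2 * m) * (2 * (4 * m + 3) * c ^ (2 * m + 1) - (4 * m + 1)) →
      1 < q ^ T (2 * m) * (2 * (4 * m + 3) * q ^ (2 * m + 1) - (4 * m + 1)) := by
    intro c c0 cq c1 c2
    refine lt_of_lt_of_le c2 ?_
    gcongr
  rcases (show m = 1 ∨ m = 2 ∨ m = 3 ∨ 4 ≤ m by omega) with rfl | rfl | rfl | h4
  · exact small (5 / 6) (by norm_num) (by norm_num at h; linarith) (by norm_num)
      (by norm_num [T])
  · exact small (12 / 13) (by norm_num) (by norm_num at h; linarith) (by norm_num)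
      (by norm_num [T])
  · exact small (65 / 68) (by norm_num) (by norm_num at h; linarith) (by norm_num)
      (by norm_num [T])
  have m4 : (4 : ℝ) ≤ m := by exact_mod_cast h4
  have hb := bern h0 h1 (2 * m + 1)
  push_cast at hb
  have d0 : 0 ≤ 1 - q := by linarith
  have b1 : (4 * (m : ℝ) + 3) * (2 * m + 1) * (1 - q) ≤ 6 := le_trans (by gcongr <;> linarith)
    (le_of_eq_of_le (by ring) h : (4 * (m : ℝ) + 5) * (2 * m + 2) * (1 - q) ≤ 6)
  have b2 : 9 ≤ 2 * (4 * (m : ℝ) + 3) * q ^ (2 * m + 1) - (4 * m + 1) := by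
    have : (4 * (m : ℝ) + 3) * (1 - q ^ (2 * m + 1)) ≤ (4 * m + 3) * ((2 * m + 1) * (1 - q)) := by
      gcongr
    nlinarith
  have t1 : 2 * (T (2 * m) : ℝ) = (2 * m) ^ 2 + 2 * m := by exact_mod_cast two_T (2 * m)
  have b3 : (T (2 * m) : ℝ) * (1 - q) ≤ 3 / 2 := by
    have : 4 * (T (2 * m) : ℝ) * (1 - q) ≤ (2 * (m : ℝ) + 2) * (4 * m + 5) * (1 - q) := by
      gcongr ?_ * (1 - q); nlinarith
    linarith
  have q34 : 3 / 4 ≤ q := by nlinarith
  have b4 : (q⁻¹) ^ T (2 * m) ≤ 8 := by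
    have x1 : q⁻¹ ≤ Real.exp ((1 - q) / q) := by
      refine le_trans (le_of_eq ?_) (Real.add_one_le_exp _)
      field_simp; ring
    calc _ ≤ Real.exp ((1 - q) / q) ^ T (2 * m) := by gcongr
      _ = Real.exp (T (2 * m) * ((1 - q) / q)) := (Real.exp_nat_mul _ _).symm
      _ ≤ Real.exp (1 + 1) := by
          gcongr
          rw [← mul_div_assoc, div_le_iff₀ h0]; linarith
      _ ≤ 8 := by
          rw [Real.exp_add]
          nlinarith [Real.exp_one_lt_d9, Real.exp_pos 1]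
  have hp : 0 < q ^ T (2 * m) := by positivity
  rw [inv_pow, inv_le_comm₀ hp (by norm_num)] at b4
  nlinarith

theorem odd_neg (m : ℕ) (hm : 1 ≤ m) (h0 : 0 < q) (h : q ∉ A (2 * m + 1)) :
    P (2 * m + 1) q < 0 := by
  have P1 : P 1 q = 1 - a q 1 := by simp [P, sum_range_succ, a, T]; ring
  by_cases h1 : q < 1
  · have h2 : (((2 * m + 1 : ℕ) : ℝ) + 1) * (2 * (2 * m + 1 : ℕ) + 3)
        ≤ ((2 * m + 1 : ℕ) + 3) * (2 * (2 * m + 1 : ℕ) + 5) * q ^ (2 * m + 1 + 2) :=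
      not_lt.1 fun hn => h ⟨h0, hn⟩
    have h3 : q ^ (2 * m + 1 + 2) * (1 + (2 * m + 1 + 2 : ℕ) * (1 - q)) ≤ 1 := by
      have x1 := one_add_mul_le_pow (a := 1 - q) (by linarith) (2 * m + 1 + 2)
      calc _ ≤ q ^ (2 * m + 1 + 2) * (1 + (1 - q)) ^ (2 * m + 1 + 2) := by gcongr
        _ = (q * (1 + (1 - q))) ^ (2 * m + 1 + 2) := (mul_pow _ _ _).symm
        _ ≤ 1 := pow_le_one₀ (by nlinarith) (by nlinarith [sq_nonneg (1 - q)])
    push_cast at h2 h3
    have m0 : (0 : ℝ) ≤ m := by positivity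
    have d0 : 0 ≤ 1 - q := by linarith
    have hd : (2 * (m : ℝ) + 2) * (4 * m + 5) * (1 - q) ≤ 6 := by
      have x1 : (2 * (m : ℝ) + 1 + 1) * (2 * (2 * m + 1) + 3) * (1 + (2 * m + 1 + 2) * (1 - q))
          ≤ (2 * m + 1 + 3) * (2 * (2 * m + 1) + 5) *
            (q ^ (2 * m + 1 + 2) * (1 + (2 * m + 1 + 2) * (1 - q))) := by
        rw [← mul_assoc]; gcongr
      have x2 : (2 * (m : ℝ) + 1 + 3) * (2 * (2 * m + 1) + 5) *
            (q ^ (2 * m + 1 + 2) * (1 + (2 * m + 1 + 2) * (1 - q)))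
          ≤ (2 * m + 1 + 3) * (2 * (2 * m + 1) + 5) * 1 := by gcongr
      refine le_of_mul_le_mul_left (a := 2 * (m : ℝ) + 3) ?_ (by linarith)
      nlinarith
    have key : ∀ i ≤ m, 2 * P (2 * i + 1) q ≤ 1 + a q (2 * i) - 2 * a q (2 * i + 1) := by
      intro i
      induction i with
      | zero => intro _; simp only [mul_zero, zero_add, P1]; simp [a, T]; linarith
      | succ i ih =>
        intro hi
        have h4 := ih (by omega)
        have hi' : (i : ℝ) + 1 ≤ m := by exact_mod_cast hi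
        have i0 : (0 : ℝ) ≤ i := by positivity
        have h5 := conc h0 h1 (2 * i) (le_trans (by
          push_cast
          gcongr ?_ * (1 - q)
          nlinarith) hd)
        rw [show 2 * (i + 1) + 1 = 2 * i + 1 + 2 by ring, odd_two,
          show 2 * (i + 1) = 2 * i + 2 by ring]
        simp only [show 2 * i + 1 + 1 = 2 * i + 2 by ring, show 2 * i + 2 + 1 = 2 * i + 1 + 2 by ring]
        linarith
    linarith [key m le_rfl, fin h0 h1 m hm hd]
  · have inc : ∀ j, a q j ≤ a q (j + 1) := by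
      intro j
      refine a_le h0.le ?_
      have : 1 ≤ q ^ (j + 1) := one_le_pow₀ (not_lt.1 h1)
      have : (0 : ℝ) ≤ j := by positivity
      nlinarith
    have key : ∀ i, P (2 * i + 1) q < 0 := by
      intro i
      induction i with
      | zero =>
        simp only [mul_zero, zero_add, P1]
        simp [a, T]; linarith [not_lt.1 h1]
      | succ i ih =>
        rw [show 2 * (i + 1) + 1 = 2 * i + 1 + 2 by ring, odd_two]
        linarith [inc (2 * i + 1 + 1)]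
    exact key m

end Pool.Agent.KS6_65.TZ
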